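import Pool.Agent.J4.H14.MV.Map

/-!
MP_70ba79_ag, Q1: log general type and linear degree bounds for curves, for all quasi-projective
varieties which have a generically finite many-valued morphism to a sufficiently ramified covering of
an arbitrary variety, ramified over very general members of (sparse) linear systems, some of which are
removed.

Let `K` be an algebraically closed field of characteristic `0`, and let `k` be a field contained in
`K`, with algebraic closure `k'` in `K`. A *ramified pair* (`SparsePair k K`, in
`Pool/Agent/J4/H14/MV/Defs.lean`) is given by

* a closed subset `V` of the projective `n`-space over `k'`, of dimension at most `m` (of any degree,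
  with any singularities);
* very general members `F_a`, `a` in a finite set, of linear systems of forms of degrees `d_a` over
  `k'`. The systems can be sparse: it is supposed only that they contain the monomials
  `x_c ^ (d_a - l) x_i ^ l` for the `c` in a set of indices, `charts` (with at least one element, else
  nothing is said); for all monomials, this is the set of all `c`;
* a projective variety or algebraic set `X` over `K` (any closed subset of the weighted projective
  space with the coordinates `x_0, …, x_n` of weight `1` and `u_w` of weight `e_w ≤ E`), with a finite
  morphism `(x, u) ↦ x` to `V` and to the hypersurfaces `F_a = 0` with `a` in a set `C` (for example,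
  `C` is empty and `X = V`, `E = 1`), which is ramified of order at least `q_a ≥ 1` over `F_a = 0` for
  the `a ∉ C` with `q_a ≠ 0`;
* the boundary, which consists of the hypersurfaces `F_a = 0` with `a ∉ C` and `q_a = 0`; `X°` is its
  complement in `X`.

Let `T = total` be the sum of the `d_a + 1` (`a ∈ C`), of the `d_a (1 - 1 / q_a)` and of the `d_a`
(boundary), and `excess r = T - 2 m - 2 (r - 1) E`. For example, `excess 1 = T - 2 m`. `X.Point z`: the
`z` are the coordinates of a point of `X`, in one of the charts `x_c ≠ 0`.

The linear bounds need `excess r > 0` (for `V = P^m`, `r = 1` and hyperplanes, this is the sharp
condition `T > 2 m`), and log general type in dimension `w` needs only `excess r + (w - 1) > 0` (for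
`V = P^m`, `w = m`, `r = 1` and the complement of a hypersurface, this is the sharp condition
`T > m + 1`).

Let `M` be any projective variety over `K`, of dimension `w ≥ 1`, with function field `L` and generic
point `u`, let `B` be a form of degree `b ≥ 0` which does not vanish on `M`, and let `M°` be the
complement of `B = 0` in `M`. `MultiMap k u B b r`: an `r`-valued morphism from `M°` to the open
variety `X°` of a ramified pair, that is, a correspondence `M ← W → X`, where `W → M` has degree at
most `r`, given by a point `z` of `X` with coordinates in the function field `L'` of `W`, such that the
algebraic functions `x_j ^ d_a / F_a (x)` on `M°`, for the `F_a` of the boundary, are integral over the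
regular functions. It is generically finite if `L'` is algebraic over `K(z)`. For example, `M°` is the
quotient by a finite group of order at most `r` of a variety with a generically finite morphism to
`X°`.

`LogGT u B b w`: `M°` is of log general type. `CoverBound ρ u B b`: outside of a proper closed subset of
`M°`, `deg f ≤ A max (2 g - 2 + s, 0)` for the morphisms `f` to `M°` from the coverings of degree at
most `ρ` of curves of any genus `g` with any number `s` of points removed; for `ρ = 1`, these are all
affine curves.

The proof. For a point `z` of `X`, with coordinates in an extension of degree `r` of `L`, there is a
symmetric differential form `ω` of weight `N` on the extension, with zeros along all divisors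
proportional to the poles of the coordinates (obtained with the derivations dual to the coefficients
of the `F_a`). Its norm, multiplied by the norm of the `N`-th power of the different of a linear
combination of the coordinates, has no poles, and is not zero; the zeros suffice if
`excess r + (w - 1) > 0`. On curves, this gives `excess r · deg f ≤ r (2 g - 2 + s)` for the maps to
`X°` from the coverings of degree `r` of curves of genus `g` without `s` points (`curve_multi`).
-/

set_option autoImplicit false
set_option linter.overlappingInstances false

namespace Pool.Agent.Results.MP_70ba79_ag.ManyValuedMorphisms

open MvPolynomial Pool.Agent.J4.H14.MV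
open Pool.Agent.J4.H14.RP (LogGT)
open Pool.Agent.W602.GT (coords)

/-- The function `t` on `M` is algebraic over the field generated by the values (the branches of the
coordinates) of all `r`-valued morphisms from `M°` to ramified pairs with `excess (ρ r) > 0`. -/
def AlgebraicOverValues (k : Type) {K L : Type} [Field k] [Field K] [Algebra k K] [Field L]
    [Algebra K L] {N : ℕ} (u : Fin (N + 1) → L) (B : MvPolynomial (Fin (N + 1)) K) (b r ρ : ℕ)
    (t : L) : Prop :=
  IsAlgebraic (IntermediateField.adjoin K
      (⋃ C : {C : MultiMap k u B b r // 0 < C.X.excess (ρ * r)}, C.1.values (AlgebraicClosure L)))
    (algebraMap L (AlgebraicClosure L) t)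

/-- Let `M` be any projective variety over `K`, of dimension `w ≥ 1`, with function field `L` and
generic point `u`, let `B` be a form which does not vanish on `M`, and let `M°` be the complement of
`B = 0` in `M`. Then both conclusions asked for in Q1 hold for `M°`, in the following cases.

**(1)** If `M°` has a generically finite `r`-valued morphism to `X°`, where `X` is a ramified pair with
`excess r + (w - 1) > 0`, then `M°` is of log general type.

**(2)** If all functions on `M` are algebraic over the values of all `r`-valued morphisms from `M°` to
ramified pairs with `excess (ρ r) > 0` (for example, if there is a generically finite one), then the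
degrees of the coverings of degree at most `ρ` of curves in `M°` are bounded linearly, outside of a
proper closed subset. -/
theorem result {k K : Type} [Field k] [Field K] [IsAlgClosed K] [CharZero K] [Algebra k K]
    {L : Type} [Field L] [Algebra K L] {w : ℕ} (hw : 1 ≤ w) (htr : Algebra.trdeg K L = w)
    {N : ℕ} {u : Fin (N + 1) → L} (hu : u ≠ 0) (hgen : coords K u = ⊤)
    {b : ℕ} {B : MvPolynomial (Fin (N + 1)) K} (hB : B.IsHomogeneous b) (hBu : aeval u B ≠ 0)
    (r : ℕ) :
    (∀ C : MultiMap k u B b r,
      Algebra.IsAlgebraic (IntermediateField.adjoin K (Set.range C.z)) C.L' →
      0 < C.X.excess r + ((w : ℚ) - 1) → LogGT u B b w) ∧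
    ∀ ρ : ℕ, (∀ t : L, AlgebraicOverValues k u B b r ρ t) → CoverBound ρ u B b :=
  ⟨fun C halg hex => gt_map hu hgen hB hBu hw htr C hex halg,
    fun _ h => joint_bound (k := k) (r := r) (AlgebraicClosure L) hu hgen hB hBu
      fun t => Pool.Agent.N111.FT.mem_aclo.2 (h t)⟩

end Pool.Agent.Results.MP_70ba79_ag.ManyValuedMorphisms
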