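import Pool.Agent.J4.H93.WS.RL

/-!
# The Lang-Vojta conjecture for affine curves, for all but finitely many members of one-parameter families of systems of monomials

Let the exponent vectors of the monomials be polynomials in one parameter `t`: `A e i j` is the exponent of the variable `x_j` in
the `i`-th monomial of the `e`-th form. We consider the projective varieties given by forms `F e` with arbitrary coefficients, in
algebraically closed fields of characteristic zero, such that all exponent vectors which occur in `F e` are among the `A e i (t)`,
and their open parts given by arbitrary sets `U` of coordinate hyperplanes.

**Theorem.** Assume one of the following conditions.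
* `NoConstantWidths A`: if the widths of at most `n` pairs of exponent vectors (of the same form) in the variables from a set `I`
  with respect to directions `u` with polynomial entries vanish only if `u` is constant on `I`, then they are all constant only if
  `u` is constant on `I`. If this is violated there are directions for which the widths of the pairs remain bounded for all `t`.
  The condition may hold although the leading coefficients of the exponents are degenerate.
* `LeadingRanks A k`: the exponents have degree at most `k`, and the ranks of the coefficients of `t ^ k` are as large as possible.

Then for all but finitely many `t` there is a constant `A` such that `Equivalent A U F` for all these systems of forms, all fields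
and all `U` (`LogUniform`).

`Equivalent A U F`: for all components `V` of positive dimension of `X = {F = 0, x_j ≠ 0 for j in U}` it is equivalent that `V` is
of log general type; that off a proper closed subset the degrees of the morphisms from all affine curves of genus `g` with `s`
points at infinity to `V` are at most `A max (2 g - 2 + s, 0)`; or at most some constant times this; or at most `β (2 g - 2 + s)`
for a function `β`; or bounded for each curve; or bounded for the multiplicative group; that `V` is strongly of log general type;
that all diagonal one-parameter groups which act on `V` act trivially.

New is the criterion for polynomial families: the lattice widths are large for all large `t`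
(`Pool.Agent.J4.H93.WS.wide_poly`), because otherwise the value of a polynomial `D` divides that of another one infinitely often,
and this gives a polynomial direction. The theorems of the starting library on wide systems are used.
-/

set_option autoImplicit false

namespace Pool.Agent.Results.MP_70ba79_ag.PolynomialExponents

open MvPolynomial Pool.Agent.J4.H93.WS Pool.Agent.J4.H93.WS.RL Pool.Agent.R869.Wd

/-- For all large `t`, `LogUniform` for the systems whose exponent vectors are among the values `A e i (t)`. -/
theorem result {n s : ℕ} {ι : Type} [Finite ι] (A : ι → Fin s → Fin (n + 1) → Polynomial ℤ)
    (hdeg : ∀ e i i', ∑ j, A e i j = ∑ j, A e i' j) (hA : NoConstantWidths A ∨ ∃ k, LeadingRanks A k) :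
    ∃ t₀ : ℕ, ∀ t : ℕ, t₀ ≤ t → LogUniform fun e i j => (A e i j).eval (t : ℤ) := by
  obtain ⟨N, hN⟩ : ∃ N, N = (s + 1) * (n * Pool.Agent.R869.tri (s + 1 - 1)) + 1 := ⟨_, rfl⟩
  obtain ⟨t₀, h⟩ := wide_one' hdeg hA N
  refine ⟨t₀, fun t ht => uniform_of_wide (fun e i i' => ?_) (h t ht) (by omega)⟩
  rw [← Polynomial.eval_finsetSum, ← Polynomial.eval_finsetSum, hdeg e i i']

end Pool.Agent.Results.MP_70ba79_ag.PolynomialExponents
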