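import Pool.Agent.J4.H93.WS.RL

/-!
# The Lang-Vojta conjecture for affine curves, for almost all members of all polynomial families of systems of monomials

The exponents of the monomials are any polynomials `A e i j` (form `e`, monomial `i`, variable `j`) with integral coefficients in
`m` parameters `t_1, …, t_m`. We consider the projective varieties given by forms `F e` with arbitrary coefficients, in
algebraically closed fields of characteristic zero, such that all exponent vectors which occur in `F e` are among the `A e i (t)`,
and their open parts given by arbitrary sets `U` of coordinate hyperplanes.

**Theorem.** Assume one of the following conditions.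
* `NoConstantWidthsR A`: take a set `I` of variables and at most `n` pairs of exponent vectors (of the same form) in the variables
  from `I`; if the widths of these pairs with respect to a direction `u` with polynomial entries vanish only if `u` is constant on
  `I`, then they are all integers only if `u` is constant on `I`.
* At some integral point, the same for all `e`, the exponent vectors `A e i` of each form `e` coincide: for example, linear forms in the parameters such as
  `t_1 p_i + t_2 q_i + …`, and the family of all the tuples of monomials.

Then, for all parameters `t` outside of a sparse set `E`, there is a constant `A` such that `Equivalent A U F` for all these systems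
of forms, all fields and all `U` (`LogUniform`). `E` is sparse: for every `η > 0` the proportion of the elements of `E` in each
product `S_1 × ⋯ × S_m` of sets `S_i ⊆ {0, …, H}` with at least `q` elements is at most `C H ^ η / q`.

`Equivalent A U F`: for all components `V` of positive dimension of `X = {F = 0, x_j ≠ 0 for j in U}` it is equivalent that `V` is
of log general type; that off a proper closed subset the degrees of the morphisms from all affine curves of genus `g` with `s`
points at infinity to `V` are at most `A max (2 g - 2 + s, 0)`; or at most some constant times this; or at most `β (2 g - 2 + s)`
for a function `β`; or bounded for each curve; or bounded for the multiplicative group; that `V` is strongly of log general type;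
that all diagonal one-parameter groups which act on `V` act trivially.

Proof. Two new steps. (1) The widths with respect to integral directions are bounded only if the value of a polynomial `D` divides
the value of another polynomial `G`, where `D` does not divide any `c G`, or one of finitely many nonzero polynomials vanishes, or
there is a polynomial direction with constant widths (`Pool.Agent.J4.H93.WS.no_direction'`). (2) If `D` does not divide any `c G`,
then `D (t)` divides `G (t)` only for a sparse set of `t` (`Pool.Agent.J4.H93.WS.sparse_dvd`): a prime factor of `D` and `G` have a
combination which does not depend on one of the parameters and has few divisors. Then the theorems of the starting library on wide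
systems apply.
-/

set_option autoImplicit false

namespace Pool.Agent.Results.MP_70ba79_ag.PolynomialFamilies

open MvPolynomial Pool.Agent.J4.H93.WS Pool.Agent.J4.H93.WS.RL Pool.Agent.R869.Wd

/-- For all parameters `t` outside of a sparse set, `LogUniform` for the systems whose exponent vectors are among the values
`A e i (t)`. -/
theorem result {m n s : ℕ} {ι : Type} [Finite ι] (A : ι → Fin s → Fin (n + 1) → MvPolynomial (Fin m) ℤ)
    (hdeg : ∀ e i i', ∑ j, A e i j = ∑ j, A e i' j)
    (hA : NoConstantWidthsR A ∨ ∃ t₀ : Fin m → ℤ, ∀ e i i' j, eval t₀ (A e i j) = eval t₀ (A e i' j)) :
    Sparse {t : Fin m → ℕ | ¬ LogUniform fun e i j => eval (fun k => (t k : ℤ)) (A e i j)} := by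
  obtain ⟨N, hN⟩ : ∃ N, N = (s + 1) * (n * Pool.Agent.R869.tri (s + 1 - 1)) + 1 := ⟨_, rfl⟩
  refine (wide_several' hdeg hA N).mono fun t ht hcon => ht ?_
  refine uniform_of_wide (a := fun e i j => evn t (A e i j)) (fun e i i' => ?_) hcon (by omega)
  rw [← map_sum, ← map_sum, hdeg e i i']

end Pool.Agent.Results.MP_70ba79_ag.PolynomialFamilies
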