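import Pool.Agent.J4.H73.BF.Final

/-!
MP_70ba79_ag, Q1: the Lang-Vojta conjecture for affine curves, with a linear function `β`, for the
varieties, of any dimension, all of whose functions are algebraic over the values of rational maps
to the spaces `P^n` of the polynomials of degree at most `n` which are ramified over the hyperplanes
of the polynomials that vanish at given constants, and for all their subvarieties which are not
contained in a proper closed subset; these subvarieties are of log general type.
-/

set_option autoImplicit false

namespace Pool.Agent.Results.MP_70ba79_ag.PolynomialSpaces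

open FF MvPolynomial Pool.Agent.J4.H73.BF
open Pool.Agent.W603.LV (canDeg)
open Pool.Agent.W603.PV (pht)
open Pool.Agent.W602.GT (IsForm coords)
open Pool.Agent.Y216 (OnVar)

/-- Let `M` be a projective variety over the algebraically closed field `k` of characteristic `0`,
with generic point `u` and function field `L`, and let `M°` be the complement in `M` of the
hypersurface `B = 0`. Assume that all functions on `M` are algebraic over the values of orbifold
polynomials on `M°` (see `OrbifoldPolynomial`).

Then there are a proper closed subset `G = 0` of `M` and a number `A` such that every subvariety `V`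
of `M`, of dimension `w ≥ 1`, with generic point `v`, which is not contained in `G = 0` or `B = 0`
(for instance `V = M`), satisfies the conjecture: `V° = V ∩ M°` is of log general type, and

`deg f ≤ A max (2 g - 2 + s, 0)`

for all morphisms `f` to `V°` from smooth projective curves of genus `g` without `s` points such
that the image of `f` is not contained in `G = 0`. -/
theorem result {k : Type} [Field k] [IsAlgClosed k] [CharZero k] {L : Type} [Field L] [Algebra k L]
    {N : ℕ} (u : Fin (N + 1) → L) (hu : u ≠ 0) (hgen : coords k u = ⊤)
    (B : MvPolynomial (Fin (N + 1)) k) (b : ℕ) (_hB : B.IsHomogeneous b) (_hBu : aeval u B ≠ 0)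
    (h : ∀ t : L, IsAlgebraic
      (IntermediateField.adjoin k {z : L | ∃ H : OrbifoldPolynomial u B b, z ∈ H.values}) t) :
    ∃ G : MvPolynomial (Fin (N + 1)) k, IsForm G ∧ aeval u G ≠ 0 ∧ ∃ A : ℕ,
      ∀ (K : Type) [Field K] [Algebra k K] (v : Fin (N + 1) → K) (w : ℕ), OnVar k u v →
        coords k v = ⊤ → Algebra.trdeg k K = w → 1 ≤ w → aeval v B ≠ 0 → aeval v G ≠ 0 →
        LogGT v B b w ∧
          ∀ (E : Type) [Field E] [Algebra k E] [IsFF k E] (S : Finset (Place k E))
            (f : Fin (N + 1) → E), CurveTo v B b S f → aeval f G ≠ 0 →
            pht k f ≤ A * max (canDeg k E + S.card) 0 :=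
  lang_vojta hu hgen fun t => Pool.Agent.N111.FT.mem_aclo.2 (h t)

end Pool.Agent.Results.MP_70ba79_ag.PolynomialSpaces
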